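import Pool.Agent.helper13.MT.TR1
import Pool.Agent.helper35.MT.TR8
import Pool.Agent.helper83.MT.TR9
import Pool.Agent.helper17.MT.TR4
import Pool.Agent.helper83.MT.TR2
import Pool.Agent.helper17.MT.TR10a
import Pool.Agent.helper13.MT.TR10b

/-!
# Maynard-Tao, module TR11b: the lower bound for the sum with one form prime
-/

namespace Pool.Agent.helper39.MT

open Finset Real ArithmeticFunction

namespace TR11b

section labels
variable {k W R : ℕ}

theorem dd_dvd_mul {τ σ σ' : PS W R → Option (Fin k)}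
    (h : ∀ p, τ p ≠ none → σ p ≠ none ∨ σ' p ≠ none) :
    dd (fun p : PS W R => (p : ℕ)) τ ∣
      dd (fun p : PS W R => (p : ℕ)) σ * dd (fun p : PS W R => (p : ℕ)) σ' := by
  unfold dd
  rw [← Finset.prod_mul_distrib]
  refine Finset.prod_dvd_prod_of_dvd _ _ fun p _ => ?_
  by_cases h0 : τ p = none
  · simp [h0]
  · rcases h p h0 with h1 | h1
    · simp only [if_neg h0, if_neg h1]; exact Dvd.intro _ rfl
    · simp only [if_neg h0, if_neg h1]; exact Dvd.intro_left _ rfl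

theorem dd_pos (τ : PS W R → Option (Fin k)) : 0 < dd (fun p : PS W R => (p : ℕ)) τ := by
  unfold dd
  refine Finset.prod_pos fun p _ => ?_
  split_ifs
  · norm_num
  · exact (mem_PS.1 p.2).2.1.pos

theorem dd_squarefree (τ : PS W R → Option (Fin k)) :
    Squarefree (dd (fun p : PS W R => (p : ℕ)) τ) := by
  unfold dd
  refine Finset.squarefree_prod_of_pairwise_isCoprime ?_ ?_
  · intro p _ q _ hpq
    simp only [Function.onFun]
    rw [← Nat.coprime_iff_isRelPrime]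
    split_ifs
    · exact Nat.coprime_one_left _
    · exact Nat.coprime_one_left _
    · exact Nat.coprime_one_right _
    · exact (Nat.coprime_primes (mem_PS.1 p.2).2.1 (mem_PS.1 q.2).2.1).2
        (fun h => hpq (Subtype.ext h))
  · intro p _
    split_ifs
    · exact squarefree_one
    · exact (mem_PS.1 p.2).2.1.squarefree

theorem dd_coprime (τ : PS W R → Option (Fin k)) :
    Nat.Coprime (dd (fun p : PS W R => (p : ℕ)) τ) W := by
  unfold dd
  refine Nat.Coprime.prod_left fun p _ => ?_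
  split_ifs
  · exact Nat.coprime_one_left _
  · exact (Nat.Prime.coprime_iff_not_dvd (mem_PS.1 p.2).2.1).2 (mem_PS.1 p.2).2.2

end labels

theorem Ex_sum {ι Ω : Type*} [Fintype ι] [DecidableEq ι] [Fintype Ω] {T : Type*} [Fintype T]
    (μ : ι → Ω → ℝ) (c : T → ℝ) (H : T → (ι → Ω) → ℝ) :
    Ex μ (fun e => ∑ t, c t * H t e) = ∑ t, c t * Ex μ (H t) := by
  unfold Ex
  simp only [Finset.mul_sum]
  rw [Finset.sum_comm]
  refine Finset.sum_congr rfl fun t _ => Finset.sum_congr rfl fun e _ => by ring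

theorem Ex_nonneg {ι Ω : Type*} [Fintype ι] [DecidableEq ι] [Fintype Ω]
    {μ : ι → Ω → ℝ} (hμ : ∀ p e, 0 ≤ μ p e) {H : (ι → Ω) → ℝ} (hH : ∀ e, 0 ≤ H e) :
    0 ≤ Ex μ H :=
  Finset.sum_nonneg fun e _ => mul_nonneg (Finset.prod_nonneg fun p _ => hμ p _) (hH e)

theorem mu1_nonneg {k : ℕ} (m : Fin k) {p : ℝ} (hp : (k : ℝ) ≤ p) (hp1 : 1 < p)
    (e : Option (Fin k)) : 0 ≤ mu1 m p e := by
  cases e with
  | none =>
    simp only [mu1]
    rw [sub_nonneg, div_le_one (by linarith)]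
    linarith
  | some i =>
    simp only [mu1]
    split_ifs
    · exact le_rfl
    · exact div_nonneg zero_le_one (by linarith)

open Filter Topology in
theorem tendsto_pow_exp (n : ℕ) :
    Tendsto (fun L : ℝ => L ^ n * Real.exp (-(9 / 50) * L)) atTop (𝓝 0) := by
  have h1 := Real.tendsto_pow_mul_exp_neg_atTop_nhds_zero n
  have h2 : Tendsto (fun L : ℝ => (9 / 50 : ℝ) * L) atTop atTop :=
    tendsto_id.const_mul_atTop (by norm_num)
  have h3 := (h1.comp h2).const_mul ((50 / 9 : ℝ) ^ n)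
  rw [mul_zero] at h3
  refine h3.congr fun L => ?_
  simp only [Function.comp]
  rw [mul_pow, neg_mul, ← mul_assoc, ← mul_assoc, ← mul_pow]
  norm_num

open Filter Topology in
theorem eventually_small (k : ℕ) (a b c : ℝ) :
    ∀ᶠ L : ℝ in atTop, a / L ^ 3 + b * (L ^ (2 * k) * Real.exp (-(9 / 50) * L))
      + c * Real.exp (-(9 / 50) * L) ≤ 1 / L := by
  have h1 : Tendsto (fun L : ℝ => a / L ^ 2 + b * (L ^ (2 * k + 1) * Real.exp (-(9 / 50) * L))
      + c * (L ^ 1 * Real.exp (-(9 / 50) * L))) atTop (𝓝 (0 + b * 0 + c * 0)) := by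
    refine ((Tendsto.div_atTop tendsto_const_nhds (tendsto_pow_atTop two_ne_zero)).add
      ((tendsto_pow_exp _).const_mul _)).add ((tendsto_pow_exp _).const_mul _)
  simp only [mul_zero, add_zero] at h1
  filter_upwards [h1.eventually (gt_mem_nhds one_pos), eventually_gt_atTop 0] with L hL hL0
  rw [le_div_iff₀ hL0]
  refine le_trans (le_of_eq ?_) hL.le
  field_simp
  ring

/-- the exact form of the error estimate -/
theorem core {k D₀ W : ℕ} {A B : Fin k → ℕ} (h : Std k D₀ A B W) (hk : 2 ≤ k)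
    (hD : 4 * k + 4 ≤ D₀) (m : Fin k) (C₀ : ℕ)
    (hbv : ∃ L₁ : ℝ, ∀ L : ℝ, L₁ ≤ L → Good C₀ L →
    ∃ E : ℕ → ℝ, (∀ D, 0 ≤ E D) ∧
      (∀ D b : ℕ, D ≠ 0 → (D : ℝ) ≤ Real.exp (L / 60) → Squarefree D → Nat.Coprime D (A m) →
        Nat.Coprime b (A m * D) → EE (A m) L D b ≤ E D) ∧
      ∀ Q : ℕ, (Q : ℝ) ≤ Real.exp (L / 60) →
        ∑ D ∈ Icc 1 Q with Squarefree D ∧ Nat.Coprime D (A m),
          ((6 * k : ℕ) : ℝ) ^ D.primeFactors.card * E D ≤ 1 / L ^ (2 * k + 3)) :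
    ∃ L₁ : ℝ, ∀ L : ℝ, L₁ ≤ L → Good C₀ L → ∀ R : ℕ, 2 ≤ R →
      (R : ℝ) ≤ Real.exp (L / 200) →
      ∀ y : (PS W R → Option (Fin k)) → ℝ, (∀ σ, |y σ| ≤ 1) →
      (∀ σ, y σ ≠ 0 → dd (fun p : PS W R => (p : ℕ)) σ ≤ R) →
      (W : ℝ) / Nat.totient W * (L / 5) *
          Ex (fun p : PS W R => mu1 m (p : ℝ)) (fun e => FF (fun p : PS W R => (p : ℕ)) y e ^ 2)
          - 1 / L
        ≤ ∑ n ∈ Ioc 0 (NN L 0) with (A m * n + B m).Prime, wt L 0 n * Real.log (A m * n + B m) *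
          FF (fun p : PS W R => (p : ℕ)) y (pat A B (PS W R) n) ^ 2 := by
  obtain ⟨La, hbv⟩ := hbv
  obtain ⟨C1, Lb, hC1, hS2⟩ := S2_one_of (fun h τ => ind_pat h τ)
    (fun A B hA => prime_powers A B hA) h hk m
  obtain ⟨C2, Lc, hC2, hpp⟩ := prime_powers (A m) (B m) (h.Apos m)
  obtain ⟨Ld, hLam⟩ := Lam_wt_sum_ge (A m) (h.Apos m)
  obtain ⟨C3, hC3, hprod⟩ := prod_small k
  obtain ⟨C4, hC4, hpow⟩ := pow_omega_le (6 * k)
  obtain ⟨Le, hsmall⟩ := Filter.eventually_atTop.1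
    (eventually_small k (C3 * A m) (C3 * C1 * C4) C2)
  refine ⟨max 2 (max La (max Lb (max Lc (max Ld Le)))), fun L hL hgood R hR2 hR y hy hy' => ?_⟩
  simp only [max_le_iff] at hL
  obtain ⟨hL2, hLa, hLb, hLc, hLd, hLe⟩ := hL
  have hL0 : 0 < L := by linarith
  specialize hbv L hLa hgood
  specialize hS2 L hLb R hR
  specialize hpp L hLc
  obtain ⟨hLam1, hLam2⟩ := hLam L hLd
  specialize hsmall L hLe
  obtain ⟨E, hE0, hE1, hE2⟩ := hbv
  set pr : PS W R → ℕ := fun p => (p : ℕ) with hprdef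
  have hsmallW : ∀ p : ℕ, p.Prime → p ≤ 4 * k + 4 → p ∣ W := fun p hp hle =>
    h.small p hp (hle.trans hD)
  have hpr : ∀ p : PS W R, 4 * k + 4 ≤ pr p := by
    intro p
    by_contra hcon
    exact (mem_PS.1 p.2).2.2 (hsmallW p (mem_PS.1 p.2).2.1 (by
      simp only [hprdef] at hcon; omega))
  obtain ⟨c, hc1, hc2, hc3⟩ := FF_expand pr hpr y hy
  have hdd : ∀ τ, c τ ≠ 0 → dd pr τ ≤ R ^ 2 := by
    intro τ hτ
    obtain ⟨σ, σ', h1, h2, h3⟩ := hc3 τ hτ
    have h4 := Nat.le_of_dvd (Nat.mul_pos (dd_pos σ) (dd_pos σ')) (dd_dvd_mul h3)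
    refine h4.trans ?_
    rw [pow_two]
    exact Nat.mul_le_mul (hy' σ h1) (hy' σ' h2)
  -- abbreviations
  set μ : PS W R → Option (Fin k) → ℝ := fun p => mu1 m ((p : ℕ) : ℝ) with hμdef
  set I : (PS W R → Option (Fin k)) → ℝ := fun τ => ∑ n ∈ Ioc 0 (NN L 0),
    wt L 0 n * vonMangoldt (A m * n + B m) * ind τ (pat A B (PS W R) n) with hIdef
  set S₁ : ℝ := ∑ N ∈ Ioc 0 (NN L (Real.log (A m))), vonMangoldt N * wt L (Real.log (A m)) N
    with hS₁
  set X : ℝ := (W : ℝ) / Nat.totient W with hX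
  set CP : ℝ := ∏ p : PS W R, (1 + (k : ℝ) / (((p : ℕ) : ℝ) - 1)) ^ 2 with hCP
  have hX0 : 0 ≤ X := by rw [hX]; positivity
  have hR0 : (1 : ℝ) ≤ R := by
    have : 1 ≤ R := by omega
    exact_mod_cast this
  have hCP0 : 0 ≤ CP := Finset.prod_nonneg fun p _ => sq_nonneg _
  have hCPle : CP ≤ C3 * L ^ (2 * k) := by
    refine (hprod W R hR2 hsmallW).trans ?_
    refine mul_le_mul_of_nonneg_left ?_ hC3.le
    refine pow_le_pow_left₀ (Real.log_nonneg hR0) ?_ _
    have h1 : Real.log R ≤ L / 200 := by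
      rw [Real.log_le_iff_le_exp (by linarith)]; exact hR
    linarith
  -- the two sums in terms of the coefficients
  have hsumI : ∑ n ∈ Ioc 0 (NN L 0), wt L 0 n * vonMangoldt (A m * n + B m) *
      FF pr y (pat A B (PS W R) n) ^ 2 = ∑ τ, c τ * I τ := by
    simp only [hc1, hIdef, Finset.mul_sum]
    rw [Finset.sum_comm]
    refine Finset.sum_congr rfl fun τ _ => Finset.sum_congr rfl fun n _ => by ring
  have hEx : Ex μ (fun e => FF pr y e ^ 2) = ∑ τ, c τ * Ex μ (ind τ) := by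
    have : (fun e => FF pr y e ^ 2) = fun e => ∑ τ, c τ * ind τ e := by
      funext e; exact hc1 e
    rw [this]
    exact Ex_sum μ c ind
  have hRexp : (R : ℝ) ^ 2 ≤ Real.exp (L / 60) := by
    calc (R : ℝ) ^ 2 ≤ Real.exp (L / 200) ^ 2 := pow_le_pow_left₀ (by linarith) hR 2
      _ = Real.exp (L / 100) := by rw [← Real.exp_nat_mul]; congr 1; push_cast; ring
      _ ≤ Real.exp (L / 60) := Real.exp_le_exp.2 (by linarith)
  set e5 := Real.exp (-L / 5) with he5
  have he5pos : 0 < e5 := Real.exp_pos _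
  -- the error for each label
  have herr : ∀ τ, |c τ * I τ - X * S₁ * (c τ * Ex μ (ind τ))|
      ≤ if dd pr τ ≤ R ^ 2 then CP * ((6 : ℝ) ^ (#{p | τ p ≠ none})
          * (A m * E (dd pr τ) + C1 * e5)) else 0 := by
    intro τ
    have hnn : 0 ≤ A m * E (dd pr τ) + C1 * e5 := by
      have := hE0 (dd pr τ)
      positivity
    by_cases hτ : c τ = 0
    · rw [hτ]
      simp only [zero_mul, mul_zero, sub_zero, abs_zero]
      split_ifs
      · positivity
      · exact le_rfl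
    · have hle := hdd τ hτ
      rw [if_pos hle]
      obtain ⟨b, hb1, hb2⟩ := hS2 τ hle
      have hD1 : ((dd pr τ : ℕ) : ℝ) ≤ Real.exp (L / 60) := by
        refine le_trans ?_ hRexp
        exact_mod_cast hle
      have hcop : Nat.Coprime (dd pr τ) (A m) := by
        have h1 := dd_coprime τ
        refine Nat.Coprime.symm (Nat.Coprime.symm ?_)
        refine Nat.Coprime.symm ?_
        rw [Nat.coprime_comm]
        by_contra hcon
        obtain ⟨q, hq, hq1, hq2⟩ := Nat.Prime.not_coprime_iff_dvd.1 hcon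
        have hq3 := (h.dvdA m q hq).1 hq2
        have := Nat.Coprime.eq_one_of_dvd (Nat.Coprime.coprime_dvd_left hq1 h1) hq3
        exact hq.one_lt.ne' this
      have hEE := hE1 (dd pr τ) b (dd_pos τ).ne' hD1 (dd_squarefree τ) hcop hb1
      have e1 : c τ * I τ - X * S₁ * (c τ * Ex μ (ind τ))
          = c τ * (I τ - X * S₁ * Ex μ (ind τ)) := by ring
      rw [e1, abs_mul]
      calc |c τ| * |I τ - X * S₁ * Ex μ (ind τ)|
          ≤ (CP * 6 ^ (#{p | τ p ≠ none})) * (A m * E (dd pr τ) + C1 * e5) := by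
            refine mul_le_mul (hc2 τ) ?_ (abs_nonneg _) (by positivity)
            refine hb2.trans ?_
            have : (A m : ℝ) * EE (A m) L (dd pr τ) b ≤ A m * E (dd pr τ) :=
              mul_le_mul_of_nonneg_left hEE (by positivity)
            linarith
        _ = CP * ((6 : ℝ) ^ (#{p | τ p ≠ none}) * (A m * E (dd pr τ) + C1 * e5)) := by ring
  -- summation over the labels
  have htot : |(∑ τ, c τ * I τ) - X * S₁ * ∑ τ, c τ * Ex μ (ind τ)|
      ≤ CP * (A m * (1 / L ^ (2 * k + 3)) + C1 * e5 * (C4 * (R : ℝ) ^ 4)) := by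
    have h1 : (∑ τ, c τ * I τ) - X * S₁ * ∑ τ, c τ * Ex μ (ind τ)
        = ∑ τ, (c τ * I τ - X * S₁ * (c τ * Ex μ (ind τ))) := by
      rw [Finset.mul_sum, ← Finset.sum_sub_distrib]
    rw [h1]
    refine (Finset.abs_sum_le_sum_abs _ _).trans ?_
    refine (Finset.sum_le_sum fun τ _ => herr τ).trans ?_
    rw [← Finset.sum_filter, ← Finset.mul_sum]
    refine mul_le_mul_of_nonneg_left ?_ hCP0
    have h2 := sum_labels k W R (fun D => A m * E D + C1 * e5) (fun D => by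
      have := hE0 D; positivity) 6
    refine (le_of_eq (by simp only [Nat.cast_ofNat]; rfl)).trans (h2.trans ?_)
    have h3 : ∑ D ∈ Icc 1 (R ^ 2) with Squarefree D ∧ Nat.Coprime D W,
        ((6 * k : ℕ) : ℝ) ^ D.primeFactors.card * (A m * E D + C1 * e5)
        = A m * (∑ D ∈ Icc 1 (R ^ 2) with Squarefree D ∧ Nat.Coprime D W,
          ((6 * k : ℕ) : ℝ) ^ D.primeFactors.card * E D)
          + C1 * e5 * ∑ D ∈ Icc 1 (R ^ 2) with Squarefree D ∧ Nat.Coprime D W,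
          ((6 * k : ℕ) : ℝ) ^ D.primeFactors.card := by
      rw [Finset.mul_sum, Finset.mul_sum, ← Finset.sum_add_distrib]
      refine Finset.sum_congr rfl fun D _ => by ring
    rw [h3]
    have h4 : ∑ D ∈ Icc 1 (R ^ 2) with Squarefree D ∧ Nat.Coprime D W,
          ((6 * k : ℕ) : ℝ) ^ D.primeFactors.card * E D ≤ 1 / L ^ (2 * k + 3) := by
      refine le_trans ?_ (hE2 (R ^ 2) (by push_cast; exact hRexp))
      refine Finset.sum_le_sum_of_subset_of_nonneg ?_ ?_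
      · intro D hD'
        simp only [Finset.mem_filter] at hD' ⊢
        refine ⟨hD'.1, hD'.2.1, ?_⟩
        by_contra hcon
        obtain ⟨q, hq, hq1, hq2⟩ := Nat.Prime.not_coprime_iff_dvd.1 hcon
        have hq3 := (h.dvdA m q hq).1 hq2
        have := Nat.Coprime.eq_one_of_dvd (Nat.Coprime.coprime_dvd_left hq1 hD'.2.2) hq3
        exact hq.one_lt.ne' this
      · intro D _ _
        exact mul_nonneg (by positivity) (hE0 D)
    have h5 : ∑ D ∈ Icc 1 (R ^ 2) with Squarefree D ∧ Nat.Coprime D W,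
          ((6 * k : ℕ) : ℝ) ^ D.primeFactors.card ≤ C4 * (R : ℝ) ^ 4 := by
      calc ∑ D ∈ Icc 1 (R ^ 2) with Squarefree D ∧ Nat.Coprime D W,
            ((6 * k : ℕ) : ℝ) ^ D.primeFactors.card
          ≤ ∑ D ∈ Icc 1 (R ^ 2), ((6 * k : ℕ) : ℝ) ^ D.primeFactors.card :=
            Finset.sum_le_sum_of_subset_of_nonneg (Finset.filter_subset _ _)
              (fun _ _ _ => by positivity)
        _ ≤ ∑ D ∈ Icc 1 (R ^ 2), C4 * (R : ℝ) ^ 2 := by
            refine Finset.sum_le_sum fun D hD' => ?_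
            have hD1 := Finset.mem_Icc.1 hD'
            refine (hpow D (by omega)).trans ?_
            refine mul_le_mul_of_nonneg_left ?_ hC4.le
            have hD2 : (1 : ℝ) ≤ D := by exact_mod_cast hD1.1
            have hD3 : (D : ℝ) ≤ (R : ℝ) ^ 2 := by exact_mod_cast hD1.2
            calc (D : ℝ) ^ (1 / 4 : ℝ) ≤ (D : ℝ) ^ (1 : ℝ) :=
                  Real.rpow_le_rpow_of_exponent_le hD2 (by norm_num)
              _ = D := Real.rpow_one _
              _ ≤ (R : ℝ) ^ 2 := hD3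
        _ = C4 * (R : ℝ) ^ 4 := by
            rw [Finset.sum_const, Nat.card_Icc, nsmul_eq_mul]
            simp only [Nat.add_sub_cancel]
            push_cast
            ring
    have h6 : (0 : ℝ) ≤ A m := by positivity
    have h7 := mul_le_mul_of_nonneg_left h4 h6
    have h8 := mul_le_mul_of_nonneg_left h5 (mul_nonneg hC1.le he5pos.le)
    linarith
  -- prime powers
  have hsplit : ∑ n ∈ Ioc 0 (NN L 0), wt L 0 n * vonMangoldt (A m * n + B m) *
      FF pr y (pat A B (PS W R) n) ^ 2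
      = (∑ n ∈ Ioc 0 (NN L 0) with (A m * n + B m).Prime, wt L 0 n * Real.log (A m * n + B m) *
          FF pr y (pat A B (PS W R) n) ^ 2)
        + ∑ n ∈ Ioc 0 (NN L 0) with ¬ (A m * n + B m).Prime,
          wt L 0 n * vonMangoldt (A m * n + B m) * FF pr y (pat A B (PS W R) n) ^ 2 := by
    rw [← Finset.sum_filter_add_sum_filter_not _ (fun n => (A m * n + B m).Prime)]
    congr 1
    refine Finset.sum_congr rfl fun n hn => ?_
    rw [vonMangoldt_apply_prime (Finset.mem_filter.1 hn).2]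
    push_cast
    rfl
  have hpp2 : ∑ n ∈ Ioc 0 (NN L 0) with ¬ (A m * n + B m).Prime,
          wt L 0 n * vonMangoldt (A m * n + B m) * FF pr y (pat A B (PS W R) n) ^ 2
      ≤ (R : ℝ) ^ 4 * (C2 * e5) := by
    calc _ ≤ ∑ n ∈ Ioc 0 (NN L 0) with ¬ (A m * n + B m).Prime,
          (R : ℝ) ^ 4 * (wt L 0 n * vonMangoldt (A m * n + B m)) := by
          refine Finset.sum_le_sum fun n _ => ?_
          rw [mul_comm ((R : ℝ) ^ 4)]
          exact mul_le_mul_of_nonneg_left (FF_crude k W R hsmallW y hy hy' _)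
            (mul_nonneg (wt_nonneg _ _ _) vonMangoldt_nonneg)
      _ = (R : ℝ) ^ 4 * ∑ n ∈ Ioc 0 (NN L 0) with ¬ (A m * n + B m).Prime,
          wt L 0 n * vonMangoldt (A m * n + B m) := by rw [Finset.mul_sum]
      _ ≤ (R : ℝ) ^ 4 * (C2 * e5) := mul_le_mul_of_nonneg_left hpp (by positivity)
  -- positivity of the model expectation
  have hExpos : 0 ≤ Ex μ (fun e => FF pr y e ^ 2) := by
    refine Ex_nonneg (fun p e => ?_) (fun e => sq_nonneg _)
    have h1 : ((4 * k + 4 : ℕ) : ℝ) ≤ ((p : ℕ) : ℝ) := by exact_mod_cast hpr p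
    push_cast at h1
    have hk0 : (0 : ℝ) ≤ k := by positivity
    exact mu1_nonneg m (by linarith) (by linarith) e
  have hmain : X * (L / 5) * Ex μ (fun e => FF pr y e ^ 2)
      ≤ X * S₁ * Ex μ (fun e => FF pr y e ^ 2) :=
    mul_le_mul_of_nonneg_right (mul_le_mul_of_nonneg_left hLam1 hX0) hExpos
  rw [← hsumI, ← hEx] at htot
  have h1 := (abs_le.1 htot).1
  -- numerics
  have hR4 : (R : ℝ) ^ 4 * e5 ≤ Real.exp (-(9 / 50) * L) := by
    calc (R : ℝ) ^ 4 * e5 ≤ Real.exp (L / 200) ^ 4 * e5 :=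
          mul_le_mul_of_nonneg_right (pow_le_pow_left₀ (by linarith) hR 4) he5pos.le
      _ = Real.exp (-(9 / 50) * L) := by
          rw [he5, ← Real.exp_nat_mul, ← Real.exp_add]; congr 1; push_cast; ring
  have h2 : CP * (A m * (1 / L ^ (2 * k + 3)) + C1 * e5 * (C4 * (R : ℝ) ^ 4))
      ≤ C3 * A m / L ^ 3 + (C3 * C1 * C4) * (L ^ (2 * k) * Real.exp (-(9 / 50) * L)) := by
    have hA0 : (0 : ℝ) ≤ A m := by positivity
    calc CP * (A m * (1 / L ^ (2 * k + 3)) + C1 * e5 * (C4 * (R : ℝ) ^ 4))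
        ≤ (C3 * L ^ (2 * k)) * (A m * (1 / L ^ (2 * k + 3)) + C1 * e5 * (C4 * (R : ℝ) ^ 4)) := by
          refine mul_le_mul_of_nonneg_right hCPle (by positivity)
      _ = C3 * A m / L ^ 3 + (C3 * C1 * C4) * (L ^ (2 * k) * ((R : ℝ) ^ 4 * e5)) := by
          rw [pow_add]
          field_simp
      _ ≤ _ := by
          have : (C3 * C1 * C4) * (L ^ (2 * k) * ((R : ℝ) ^ 4 * e5))
              ≤ (C3 * C1 * C4) * (L ^ (2 * k) * Real.exp (-(9 / 50) * L)) := by
            refine mul_le_mul_of_nonneg_left ?_ (by positivity)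
            exact mul_le_mul_of_nonneg_left hR4 (by positivity)
          linarith
  have h3 : (R : ℝ) ^ 4 * (C2 * e5) ≤ C2 * Real.exp (-(9 / 50) * L) := by
    calc (R : ℝ) ^ 4 * (C2 * e5) = C2 * ((R : ℝ) ^ 4 * e5) := by ring
      _ ≤ _ := mul_le_mul_of_nonneg_left hR4 hC2.le
  linarith

end TR11b

open TR11b in
/-- `S2_lower` from the statement of `bv_log` -/
theorem S2_lower_of
    (hbv : ∀ K h : ℕ, ∃ C₀ : ℕ, ∀ A : ℕ, 0 < A → ∃ L₁ : ℝ, ∀ L : ℝ, L₁ ≤ L → Good C₀ L →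
    ∃ E : ℕ → ℝ, (∀ D, 0 ≤ E D) ∧
      (∀ D b : ℕ, D ≠ 0 → (D : ℝ) ≤ Real.exp (L / 60) → Squarefree D → Nat.Coprime D A →
        Nat.Coprime b (A * D) → EE A L D b ≤ E D) ∧
      ∀ Q : ℕ, (Q : ℝ) ≤ Real.exp (L / 60) →
        ∑ D ∈ Icc 1 Q with Squarefree D ∧ Nat.Coprime D A, (h : ℝ) ^ D.primeFactors.card * E D
          ≤ 1 / L ^ K)
    {k D₀ W : ℕ} {A B : Fin k → ℕ} (h : Std k D₀ A B W) (hk : 2 ≤ k)
    (hD : 4 * k + 4 ≤ D₀) :
    ∃ C₀ : ℕ, ∃ L₁ : ℝ, ∀ L : ℝ, L₁ ≤ L → Good C₀ L → ∀ R : ℕ, 2 ≤ R →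
      (R : ℝ) ≤ Real.exp (L / 200) →
      ∀ y : (PS W R → Option (Fin k)) → ℝ, (∀ σ, |y σ| ≤ 1) →
      (∀ σ, y σ ≠ 0 → dd (fun p : PS W R => (p : ℕ)) σ ≤ R) → ∀ m : Fin k,
      (W : ℝ) / Nat.totient W * (L / 5) *
          Ex (fun p : PS W R => mu1 m (p : ℝ)) (fun e => FF (fun p : PS W R => (p : ℕ)) y e ^ 2)
          - 1 / L
        ≤ ∑ n ∈ Ioc 0 (NN L 0) with (A m * n + B m).Prime, wt L 0 n * Real.log (A m * n + B m) *
          FF (fun p : PS W R => (p : ℕ)) y (pat A B (PS W R) n) ^ 2 := by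
  obtain ⟨C₀, hC₀⟩ := hbv (2 * k + 3) (6 * k)
  refine ⟨C₀, ?_⟩
  have h1 := fun m : Fin k => core h hk hD m C₀ (hC₀ (A m) (h.Apos m))
  choose L₁ hL₁ using h1
  obtain ⟨M, hM⟩ := (Set.finite_range L₁).bddAbove
  refine ⟨M, fun L hL hg R hR2 hR y hy hy' m => ?_⟩
  exact hL₁ m L ((hM ⟨m, rfl⟩).trans hL) hg R hR2 hR y hy hy'

end Pool.Agent.helper39.MT
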