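import Pool.Agent.helper39.MT.Defs

/-!
# Maynard-Tao, module CO4: most tuples are pairwise coprime
-/

namespace Pool.Agent.helper39.MT

open Finset

namespace CO4

/-- one coordinate restricted -/
theorem card_pi_one {k : ℕ} (X : ℕ) (i : Fin k) (S : Finset ℕ) :
    #(Fintype.piFinset (fun l : Fin k => if l = i then S else Icc 1 X)) * X = #S * X ^ k := by
  rw [Fintype.card_piFinset]
  have h1 : ∏ l : Fin k, #(if l = i then S else Icc 1 X)
      = #S * ∏ l ∈ univ.erase i, X := by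
    rw [← Finset.mul_prod_erase univ _ (Finset.mem_univ i)]
    simp only [if_true]
    congr 1
    refine Finset.prod_congr rfl fun l hl => ?_
    rw [if_neg (Finset.ne_of_mem_erase hl)]
    simp
  have h2 : X ^ k = X * ∏ l ∈ (univ : Finset (Fin k)).erase i, X := by
    rw [Finset.mul_prod_erase univ (fun _ => X) (Finset.mem_univ i)]
    simp
  rw [h1, h2]; ring

/-- two coordinates restricted -/
theorem card_pi_two {k : ℕ} (X : ℕ) {i j : Fin k} (hij : i ≠ j) (S T : Finset ℕ) :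
    #(Fintype.piFinset (fun l : Fin k => if l = i then S else if l = j then T else Icc 1 X)) * X ^ 2
      = #S * #T * X ^ k := by
  rw [Fintype.card_piFinset]
  have hj : j ∈ (univ : Finset (Fin k)).erase i := by simp [hij.symm]
  have h1 : ∏ l : Fin k, #(if l = i then S else if l = j then T else Icc 1 X)
      = #S * (#T * ∏ l ∈ (univ.erase i).erase j, X) := by
    rw [← Finset.mul_prod_erase univ _ (Finset.mem_univ i), ← Finset.mul_prod_erase _ _ hj]
    simp only [if_true, if_neg hij.symm]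
    congr 2
    refine Finset.prod_congr rfl fun l hl => ?_
    have hl1 := Finset.ne_of_mem_erase hl
    have hl2 := Finset.ne_of_mem_erase (Finset.mem_of_mem_erase hl)
    rw [if_neg hl2, if_neg hl1]
    simp
  have h2 : X ^ k = X * (X * ∏ l ∈ ((univ : Finset (Fin k)).erase i).erase j, X) := by
    rw [Finset.mul_prod_erase _ (fun _ => X) hj, Finset.mul_prod_erase univ (fun _ => X)
      (Finset.mem_univ i)]
    simp
  rw [h1, h2]; ring

theorem card_modEq (X p v : ℕ) (hp : 0 < p) :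
    (#{n ∈ Icc 1 X | n ≡ v [MOD p]} : ℝ) ≤ X / p + 1 := by
  have h := Nat.Ioc_filter_modEq_card 0 X hp v
  have hI : Icc 1 X = Ioc 0 X := by ext n; simp [Nat.succ_le_iff]
  rw [hI]
  have h2 : ((#{n ∈ Ioc 0 X | n ≡ v [MOD p]} : ℤ) : ℝ) ≤ X / p + 1 := by
    rw [h]
    push_cast
    refine max_le ?_ (by positivity)
    have a1 : ((⌊((X : ℚ) - v) / p⌋ : ℤ) : ℝ) ≤ ((X : ℝ) - v) / p := by
      have := Int.floor_le (((X : ℚ) - v) / p)
      have h3 : (((⌊((X : ℚ) - v) / p⌋ : ℤ) : ℚ) : ℝ) ≤ ((((X : ℚ) - v) / p : ℚ) : ℝ) := by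
        exact_mod_cast this
      push_cast at h3
      exact h3
    have a2 : (-(v : ℝ)) / p - 1 < ((⌊(((0 : ℕ) : ℚ) - v) / p⌋ : ℤ) : ℝ) := by
      have := Int.sub_one_lt_floor ((((0 : ℕ) : ℚ) - v) / p)
      have h3 : (((((0 : ℕ) : ℚ) - v) / p - 1 : ℚ) : ℝ) < (((⌊(((0 : ℕ) : ℚ) - v) / p⌋ : ℤ) : ℚ) : ℝ) := by
        exact_mod_cast this
      push_cast at h3
      simpa using h3
    have a3 : ((X : ℝ) - v) / p = X / p + (-(v : ℝ)) / p := by ring
    push_cast at a1 a2 ⊢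
    linarith
  exact_mod_cast h2

theorem card_dvd (X p P : ℕ) (hp : p.Prime) (hP : ¬ p ∣ P) :
    (#{n ∈ Icc 1 X | p ∣ 1 + P * n} : ℝ) ≤ X / p + 1 := by
  by_cases hne : ∃ v, p ∣ 1 + P * v
  · obtain ⟨v, hv⟩ := hne
    refine le_trans ?_ (card_modEq X p v hp.pos)
    refine Nat.cast_le.2 (Finset.card_le_card ?_)
    intro n hn
    simp only [Finset.mem_filter] at hn ⊢
    refine ⟨hn.1, ?_⟩
    have h1 : (p : ℤ) ∣ P * ((v : ℤ) - n) := by
      have a1 : (p : ℤ) ∣ 1 + P * v := by exact_mod_cast hv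
      have a2 : (p : ℤ) ∣ 1 + P * n := by exact_mod_cast hn.2
      have := dvd_sub a1 a2
      have e : (1 + (P : ℤ) * v) - (1 + P * n) = P * ((v : ℤ) - n) := by ring
      rwa [e] at this
    have h2 : (p : ℤ) ∣ (v : ℤ) - n := by
      rcases (Nat.prime_iff_prime_int.1 hp).dvd_or_dvd h1 with h | h
      · exact absurd (by exact_mod_cast h) hP
      · exact h
    exact (Nat.modEq_iff_dvd.2 h2)
  · have : {n ∈ Icc 1 X | p ∣ 1 + P * n} = (∅ : Finset ℕ) := by
      rw [Finset.filter_eq_empty_iff]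
      intro n _ hn
      exact hne ⟨n, hn⟩
    rw [this]
    simp
    positivity

/-- the sum over primes -/
noncomputable def BB (D P X : ℕ) : ℝ :=
  ∑ p ∈ Icc (D + 1) (1 + P * X) with p.Prime, ((X : ℝ) / p + 1) ^ 2

theorem sum_inv_sq (D M : ℕ) (hD : 0 < D) : ∑ n ∈ Icc (D + 1) M, (1 : ℝ) / (n : ℝ) ^ 2 ≤ 1 / D := by
  have key : ∀ M, D ≤ M → ∑ n ∈ Icc (D + 1) M, (1 : ℝ) / (n : ℝ) ^ 2 ≤ 1 / D - 1 / M := by
    intro M hM
    induction M, hM using Nat.le_induction with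
    | base => simp
    | succ M hM ih =>
      rw [Finset.sum_Icc_succ_top (by omega)]
      have hM0 : (0 : ℝ) < M := by
        have : 0 < M := by omega
        exact_mod_cast this
      have : (1 : ℝ) / ((M + 1 : ℕ) : ℝ) ^ 2 ≤ 1 / M - 1 / ((M + 1 : ℕ) : ℝ) := by
        push_cast
        rw [div_sub_div _ _ hM0.ne' (by positivity), div_le_div_iff₀ (by positivity) (by positivity)]
        nlinarith
      linarith
  rcases le_total D M with h | h
  · have := key M h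
    have h2 : (0 : ℝ) ≤ 1 / M := by positivity
    linarith
  · rw [Finset.Icc_eq_empty (by omega)]
    simp

theorem BB_le (c : ℕ) : ∃ D : ℕ, 0 < D ∧ ∀ P : ℕ, ∃ X₀ : ℕ, 0 < X₀ ∧ ∀ X : ℕ, X₀ ≤ X →
    c * BB D P X ≤ (X : ℝ) ^ 2 / 2 := by
  refine ⟨8 * c + 1, by omega, fun P => ⟨8 * c * (1 + P) + 1, by omega, fun X hX => ?_⟩⟩
  set D := 8 * c + 1 with hD
  have hX0 : (0 : ℝ) ≤ X := by positivity
  have h1 : BB D P X ≤ 2 * (X : ℝ) ^ 2 * (1 / D) + 2 * (1 + P * X) := by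
    unfold BB
    calc ∑ p ∈ Icc (D + 1) (1 + P * X) with p.Prime, ((X : ℝ) / p + 1) ^ 2
        ≤ ∑ p ∈ Icc (D + 1) (1 + P * X), ((X : ℝ) / p + 1) ^ 2 :=
          Finset.sum_le_sum_of_subset_of_nonneg (Finset.filter_subset _ _)
            (fun _ _ _ => sq_nonneg _)
      _ ≤ ∑ p ∈ Icc (D + 1) (1 + P * X), (2 * (X : ℝ) ^ 2 * (1 / (p : ℝ) ^ 2) + 2) := by
          refine Finset.sum_le_sum fun p hp => ?_
          have e : 2 * (X : ℝ) ^ 2 * (1 / (p : ℝ) ^ 2) = 2 * ((X : ℝ) / p) ^ 2 := by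
            rw [div_pow]; ring
          rw [e]
          nlinarith [sq_nonneg ((X : ℝ) / p - 1)]
      _ = 2 * (X : ℝ) ^ 2 * (∑ p ∈ Icc (D + 1) (1 + P * X), 1 / (p : ℝ) ^ 2)
            + #(Icc (D + 1) (1 + P * X)) * 2 := by
          rw [Finset.sum_add_distrib, ← Finset.mul_sum, Finset.sum_const, nsmul_eq_mul]
      _ ≤ 2 * (X : ℝ) ^ 2 * (1 / D) + 2 * (1 + P * X) := by
          have h2 : (#(Icc (D + 1) (1 + P * X)) : ℝ) ≤ 1 + P * X := by
            have : #(Icc (D + 1) (1 + P * X)) ≤ 1 + P * X := by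
              rw [Nat.card_Icc]; omega
            exact_mod_cast this
          have h3 := sum_inv_sq D (1 + P * X) (by omega)
          have h4 := mul_le_mul_of_nonneg_left h3 (by positivity : 0 ≤ 2 * (X : ℝ) ^ 2)
          linarith
  have hDpos : (0 : ℝ) < D := by rw [hD]; positivity
  have h2 : (c : ℝ) * (1 / D) ≤ 1 / 8 := by
    rw [mul_one_div, div_le_div_iff₀ hDpos (by norm_num)]
    rw [hD]; push_cast; linarith
  have hX1 : (8 * (c : ℝ) * (1 + P) + 1) ≤ X := by exact_mod_cast hX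
  have hX2 : (1 : ℝ) ≤ X := by
    have : 1 ≤ X := by omega
    exact_mod_cast this
  have h3 : (c : ℝ) * (2 * (1 + P * X)) ≤ (X : ℝ) ^ 2 / 4 := by
    have a1 : (1 + (P : ℝ) * X) ≤ (1 + P) * X := by nlinarith
    have hc0 : (0 : ℝ) ≤ c := by positivity
    have a2 : (c : ℝ) * (2 * (1 + P * X)) ≤ c * (2 * ((1 + P) * X)) := by
      refine mul_le_mul_of_nonneg_left ?_ hc0
      linarith
    have a3 : c * (2 * ((1 + P) * X)) = (8 * (c : ℝ) * (1 + P)) * X / 4 := by ring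
    have a4 : (8 * (c : ℝ) * (1 + P)) * X ≤ (X : ℝ) ^ 2 := by
      have : (8 * (c : ℝ) * (1 + P)) ≤ X := by linarith
      nlinarith
    linarith
  have h4 := mul_le_mul_of_nonneg_left h1 (by positivity : (0 : ℝ) ≤ c)
  have h5 : (c : ℝ) * (2 * (X : ℝ) ^ 2 * (1 / D) + 2 * (1 + P * X))
      = 2 * (X : ℝ) ^ 2 * (c * (1 / D)) + c * (2 * (1 + P * X)) := by ring
  have h6 := mul_le_mul_of_nonneg_left h2 (by positivity : 0 ≤ 2 * (X : ℝ) ^ 2)
  linarith

/-- the set of `n ≤ X` with `p ∣ 1 + P n` -/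
def SS (P X p : ℕ) : Finset ℕ := {n ∈ Icc 1 X | p ∣ 1 + P * n}

/-- the primes to be avoided -/
def pr (D P X : ℕ) : Finset ℕ := {p ∈ Icc (D + 1) (1 + P * X) | p.Prime}

theorem mem_pr {D P X p n : ℕ} (hP : ∀ p : ℕ, p.Prime → p ≤ D → p ∣ P) (hp : p.Prime)
    (hd : p ∣ 1 + P * n) (hn : n ≤ X) : p ∈ pr D P X := by
  have h1 : ¬ p ∣ P := by
    intro h
    have : p ∣ 1 := (Nat.dvd_add_left (h.mul_right n)).1 hd
    exact hp.one_lt.ne' (Nat.dvd_one.1 this)
  have h2 : D < p := by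
    by_contra h
    exact h1 (hP p hp (by omega))
  have h3 : p ≤ 1 + P * n := Nat.le_of_dvd (by omega) hd
  have h4 : P * n ≤ P * X := Nat.mul_le_mul_left _ hn
  simp only [pr, Finset.mem_filter, Finset.mem_Icc]
  exact ⟨⟨by omega, by omega⟩, hp⟩

theorem notdvd_of_mem_pr {D P X p n : ℕ} (hp : p ∈ pr D P X) (hd : p ∣ 1 + P * n) : ¬ p ∣ P := by
  intro h
  have hp' : p.Prime := (Finset.mem_filter.1 hp).2
  have : p ∣ 1 := (Nat.dvd_add_left (h.mul_right n)).1 hd
  exact hp'.one_lt.ne' (Nat.dvd_one.1 this)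

theorem card_SS_le {D P X p : ℕ} (hp : p ∈ pr D P X) : (#(SS P X p) : ℝ) ≤ X / p + 1 := by
  have hp' : p.Prime := (Finset.mem_filter.1 hp).2
  by_cases h : ∃ n, p ∣ 1 + P * n
  · obtain ⟨n, hn⟩ := h
    exact card_dvd X p P hp' (notdvd_of_mem_pr hp hn)
  · have : SS P X p = ∅ := by
      unfold SS
      rw [Finset.filter_eq_empty_iff]
      intro n _ hn
      exact h ⟨n, hn⟩
    rw [this]; simp; positivity

/-- the tuples which are not pairwise coprime -/
theorem bad1 {k D P X : ℕ} (hP : ∀ p : ℕ, p.Prime → p ≤ D → p ∣ P) :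
    (#{x ∈ Fintype.piFinset (fun _ : Fin k => Icc 1 X) |
        ¬ ∀ i j, i ≠ j → Nat.Coprime (1 + P * x i) (1 + P * x j)} : ℝ) * (X : ℝ) ^ 2
      ≤ (k : ℝ) ^ 2 * BB D P X * (X : ℝ) ^ k := by
  classical
  have hsub : {x ∈ Fintype.piFinset (fun _ : Fin k => Icc 1 X) |
        ¬ ∀ i j, i ≠ j → Nat.Coprime (1 + P * x i) (1 + P * x j)}
      ⊆ ((univ : Finset (Fin k × Fin k)).filter (fun ij => ij.1 ≠ ij.2)).biUnion fun ij =>
          (pr D P X).biUnion fun p => Fintype.piFinset (fun l : Fin k =>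
            if l = ij.1 then SS P X p else if l = ij.2 then SS P X p else Icc 1 X) := by
    intro x hx
    simp only [Finset.mem_filter, Fintype.mem_piFinset] at hx
    obtain ⟨hx1, hx2⟩ := hx
    push Not at hx2
    obtain ⟨i, j, hij, hc⟩ := hx2
    obtain ⟨p, hp, h1, h2⟩ := Nat.Prime.not_coprime_iff_dvd.1 hc
    simp only [Finset.mem_biUnion, Finset.mem_filter, Finset.mem_univ, true_and,
      Fintype.mem_piFinset]
    refine ⟨(i, j), hij, p, mem_pr hP hp h1 (Finset.mem_Icc.1 (hx1 i)).2, fun l => ?_⟩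
    simp only
    split_ifs with h3 h4
    · subst h3; exact Finset.mem_filter.2 ⟨hx1 l, h1⟩
    · subst h4; exact Finset.mem_filter.2 ⟨hx1 l, h2⟩
    · exact hx1 l
  have h1 := (Finset.card_le_card hsub).trans (Finset.card_biUnion_le.trans
    (Finset.sum_le_sum fun ij _ => Finset.card_biUnion_le))
  have h2 : (#{x ∈ Fintype.piFinset (fun _ : Fin k => Icc 1 X) |
        ¬ ∀ i j, i ≠ j → Nat.Coprime (1 + P * x i) (1 + P * x j)} : ℝ) * (X : ℝ) ^ 2
      ≤ ∑ ij ∈ (univ : Finset (Fin k × Fin k)).filter (fun ij => ij.1 ≠ ij.2), ∑ p ∈ pr D P X,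
          ((#(Fintype.piFinset (fun l : Fin k =>
            if l = ij.1 then SS P X p else if l = ij.2 then SS P X p else Icc 1 X)) * X ^ 2 : ℕ) : ℝ) := by
    have h3 := Nat.mul_le_mul_right (X ^ 2) h1
    rw [Finset.sum_mul] at h3
    simp only [Finset.sum_mul] at h3
    exact_mod_cast h3
  refine h2.trans ?_
  calc ∑ ij ∈ (univ : Finset (Fin k × Fin k)).filter (fun ij => ij.1 ≠ ij.2), ∑ p ∈ pr D P X,
          ((#(Fintype.piFinset (fun l : Fin k =>
            if l = ij.1 then SS P X p else if l = ij.2 then SS P X p else Icc 1 X)) * X ^ 2 : ℕ) : ℝ)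
      ≤ ∑ ij ∈ (univ : Finset (Fin k × Fin k)).filter (fun ij => ij.1 ≠ ij.2),
          BB D P X * (X : ℝ) ^ k := by
        refine Finset.sum_le_sum fun ij hij => ?_
        have hij' := (Finset.mem_filter.1 hij).2
        unfold BB
        rw [Finset.sum_mul]
        refine Finset.sum_le_sum fun p hp => ?_
        rw [card_pi_two X hij']
        push_cast
        refine mul_le_mul_of_nonneg_right ?_ (by positivity)
        have := card_SS_le (show p ∈ pr D P X from hp)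
        have h0 : (0 : ℝ) ≤ #(SS P X p) := by positivity
        nlinarith
    _ = #((univ : Finset (Fin k × Fin k)).filter (fun ij => ij.1 ≠ ij.2))
          * (BB D P X * (X : ℝ) ^ k) := by
        rw [Finset.sum_const, nsmul_eq_mul]
    _ ≤ (k : ℝ) ^ 2 * (BB D P X * (X : ℝ) ^ k) := by
        have hB : 0 ≤ BB D P X * (X : ℝ) ^ k := by
          unfold BB
          exact mul_nonneg (Finset.sum_nonneg fun _ _ => sq_nonneg _) (by positivity)
        refine mul_le_mul_of_nonneg_right ?_ hB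
        have : #((univ : Finset (Fin k × Fin k)).filter (fun ij => ij.1 ≠ ij.2)) ≤ k ^ 2 := by
          refine (Finset.card_filter_le _ _).trans (le_of_eq ?_)
          rw [Finset.card_univ, Fintype.card_prod, Fintype.card_fin]; ring
        exact_mod_cast this
    _ = (k : ℝ) ^ 2 * BB D P X * (X : ℝ) ^ k := by ring

/-- the pairs of tuples with a common factor of `1 + P x_l` and `y_i - y_j` -/
theorem bad2 {k D P X : ℕ} (hX : 0 < X) (hP : ∀ p : ℕ, p.Prime → p ≤ D → p ∣ P) :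
    (#{xy ∈ Fintype.piFinset (fun _ : Fin k => Icc 1 X) ×ˢ
            Fintype.piFinset (fun _ : Fin k => Icc 1 X) |
        ¬ ∀ i j l, i ≠ j → IsCoprime ((1 + P * xy.1 l : ℕ) : ℤ) ((xy.2 i : ℤ) - xy.2 j)} : ℝ)
        * (X : ℝ) ^ 2
      ≤ (k : ℝ) ^ 3 * BB D P X * ((X : ℝ) ^ k * (X : ℝ) ^ k) := by
  classical
  have hsub : {xy ∈ Fintype.piFinset (fun _ : Fin k => Icc 1 X) ×ˢ
            Fintype.piFinset (fun _ : Fin k => Icc 1 X) |
        ¬ ∀ i j l, i ≠ j → IsCoprime ((1 + P * xy.1 l : ℕ) : ℤ) ((xy.2 i : ℤ) - xy.2 j)}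
      ⊆ ((univ : Finset (Fin k × Fin k × Fin k)).filter (fun t => t.1 ≠ t.2.1)).biUnion fun t =>
          (pr D P X).biUnion fun p => (Icc 1 X).biUnion fun v =>
            (Fintype.piFinset (fun l : Fin k => if l = t.2.2 then SS P X p else Icc 1 X)) ×ˢ
            (Fintype.piFinset (fun l : Fin k =>
            if l = t.1 then {v} else if l = t.2.1 then {n ∈ Icc 1 X | n ≡ v [MOD p]}
              else Icc 1 X)) := by
    intro xy hx
    simp only [Finset.mem_filter, Finset.mem_product, Fintype.mem_piFinset] at hx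
    obtain ⟨⟨hx1, hx1'⟩, hx2⟩ := hx
    push Not at hx2
    obtain ⟨i, j, l, hij, hc⟩ := hx2
    have hc' : ¬ Nat.Coprime (1 + P * xy.1 l) (((xy.2 i : ℤ) - xy.2 j).natAbs) := by
      intro h
      apply hc
      rw [Int.isCoprime_iff_gcd_eq_one, Int.gcd, Int.natAbs_natCast]
      exact h
    obtain ⟨p, hp, h1, h2⟩ := Nat.Prime.not_coprime_iff_dvd.1 hc'
    have h3 : (p : ℤ) ∣ (xy.2 i : ℤ) - xy.2 j := Int.natCast_dvd.2 h2
    have h4 : xy.2 j ≡ xy.2 i [MOD p] := Nat.modEq_iff_dvd.2 h3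
    simp only [Finset.mem_biUnion, Finset.mem_filter, Finset.mem_univ, true_and,
      Finset.mem_product, Fintype.mem_piFinset]
    refine ⟨(i, j, l), hij, p, mem_pr hP hp h1 (Finset.mem_Icc.1 (hx1 l)).2, xy.2 i, hx1' i,
      fun l' => ?_, fun l' => ?_⟩
    · simp only
      split_ifs with h5
      · subst h5; exact Finset.mem_filter.2 ⟨hx1 _, h1⟩
      · exact hx1 l'
    · simp only
      split_ifs with h5 h6
      · subst h5; simp
      · subst h6; exact Finset.mem_filter.2 ⟨hx1' _, h4⟩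
      · exact hx1' l'
  have h1 := (Finset.card_le_card hsub).trans (Finset.card_biUnion_le.trans
    (Finset.sum_le_sum fun ij _ => Finset.card_biUnion_le.trans
    (Finset.sum_le_sum fun p _ => Finset.card_biUnion_le)))
  have h2 : (#{xy ∈ Fintype.piFinset (fun _ : Fin k => Icc 1 X) ×ˢ
            Fintype.piFinset (fun _ : Fin k => Icc 1 X) |
        ¬ ∀ i j l, i ≠ j → IsCoprime ((1 + P * xy.1 l : ℕ) : ℤ) ((xy.2 i : ℤ) - xy.2 j)} : ℝ)
        * (X : ℝ) ^ 2 * X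
      ≤ ∑ t ∈ (univ : Finset (Fin k × Fin k × Fin k)).filter (fun t => t.1 ≠ t.2.1),
          ∑ p ∈ pr D P X, ∑ v ∈ Icc 1 X,
          ((#((Fintype.piFinset (fun l : Fin k => if l = t.2.2 then SS P X p else Icc 1 X)) ×ˢ
            (Fintype.piFinset (fun l : Fin k =>
            if l = t.1 then {v} else if l = t.2.1 then {n ∈ Icc 1 X | n ≡ v [MOD p]}
              else Icc 1 X))) * X ^ 2 * X : ℕ) : ℝ) := by
    have h3 := Nat.mul_le_mul_right X (Nat.mul_le_mul_right (X ^ 2) h1)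
    simp only [Finset.sum_mul] at h3
    exact_mod_cast h3
  have hX' : (0 : ℝ) < X := by exact_mod_cast hX
  have h4 : ∀ t : Fin k × Fin k × Fin k, t.1 ≠ t.2.1 → ∀ p ∈ pr D P X, ∑ v ∈ Icc 1 X,
          ((#((Fintype.piFinset (fun l : Fin k => if l = t.2.2 then SS P X p else Icc 1 X)) ×ˢ
            (Fintype.piFinset (fun l : Fin k =>
            if l = t.1 then {v} else if l = t.2.1 then {n ∈ Icc 1 X | n ≡ v [MOD p]}
              else Icc 1 X))) * X ^ 2 * X : ℕ) : ℝ)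
        ≤ ((X : ℝ) / p + 1) ^ 2 * ((X : ℝ) ^ k * (X : ℝ) ^ k) * X := by
    intro t ht p hp
    have hp' : p.Prime := (Finset.mem_filter.1 hp).2
    calc ∑ v ∈ Icc 1 X,
          ((#((Fintype.piFinset (fun l : Fin k => if l = t.2.2 then SS P X p else Icc 1 X)) ×ˢ
            (Fintype.piFinset (fun l : Fin k =>
            if l = t.1 then {v} else if l = t.2.1 then {n ∈ Icc 1 X | n ≡ v [MOD p]}
              else Icc 1 X))) * X ^ 2 * X : ℕ) : ℝ)
        ≤ ∑ v ∈ Icc 1 X, ((X : ℝ) / p + 1) ^ 2 * ((X : ℝ) ^ k * (X : ℝ) ^ k) := by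
          refine Finset.sum_le_sum fun v _ => ?_
          rw [Finset.card_product]
          have e1 := card_pi_one (k := k) X t.2.2 (SS P X p)
          have e2 := card_pi_two (k := k) X ht {v} ({n ∈ Icc 1 X | n ≡ v [MOD p]})
          rw [Finset.card_singleton, one_mul] at e2
          have e3 : ∀ a b : ℕ, a * b * X ^ 2 * X = (a * X) * (b * X ^ 2) := by intro a b; ring
          rw [e3, e1, e2]
          push_cast
          have a1 := card_SS_le hp
          have a2 := card_modEq X p v hp'.pos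
          have h0 : (0 : ℝ) ≤ #(SS P X p) := by positivity
          have h0' : (0 : ℝ) ≤ #{n ∈ Icc 1 X | n ≡ v [MOD p]} := by positivity
          have a3 := mul_le_mul a1 a2 h0' (h0.trans a1)
          have a4 : (0 : ℝ) ≤ (X : ℝ) ^ k * (X : ℝ) ^ k := by positivity
          have a5 := mul_le_mul_of_nonneg_right a3 a4
          calc (#(SS P X p) : ℝ) * (X : ℝ) ^ k * (#{n ∈ Icc 1 X | n ≡ v [MOD p]} * (X : ℝ) ^ k)
              = (#(SS P X p) : ℝ) * #{n ∈ Icc 1 X | n ≡ v [MOD p]} * ((X : ℝ) ^ k * (X : ℝ) ^ k) := by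
                ring
            _ ≤ ((X : ℝ) / p + 1) * ((X : ℝ) / p + 1) * ((X : ℝ) ^ k * (X : ℝ) ^ k) := a5
            _ = ((X : ℝ) / p + 1) ^ 2 * ((X : ℝ) ^ k * (X : ℝ) ^ k) := by ring
      _ = ((X : ℝ) / p + 1) ^ 2 * ((X : ℝ) ^ k * (X : ℝ) ^ k) * X := by
          rw [Finset.sum_const, Nat.card_Icc, nsmul_eq_mul]
          simp only [Nat.add_sub_cancel]
          ring
  have h5 : (#{xy ∈ Fintype.piFinset (fun _ : Fin k => Icc 1 X) ×ˢ
            Fintype.piFinset (fun _ : Fin k => Icc 1 X) |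
        ¬ ∀ i j l, i ≠ j → IsCoprime ((1 + P * xy.1 l : ℕ) : ℤ) ((xy.2 i : ℤ) - xy.2 j)} : ℝ)
        * (X : ℝ) ^ 2 * X
      ≤ (k : ℝ) ^ 3 * BB D P X * ((X : ℝ) ^ k * (X : ℝ) ^ k) * X := by
    refine h2.trans ?_
    have hB0 : 0 ≤ BB D P X := by
      unfold BB
      exact Finset.sum_nonneg fun _ _ => sq_nonneg _
    calc _ ≤ ∑ t ∈ (univ : Finset (Fin k × Fin k × Fin k)).filter (fun t => t.1 ≠ t.2.1),
              BB D P X * ((X : ℝ) ^ k * (X : ℝ) ^ k) * X := by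
          refine Finset.sum_le_sum fun t ht => ?_
          refine (Finset.sum_le_sum fun p hp => h4 t (Finset.mem_filter.1 ht).2 p hp).trans ?_
          rw [← Finset.sum_mul, ← Finset.sum_mul]
          exact le_rfl
      _ = #((univ : Finset (Fin k × Fin k × Fin k)).filter (fun t => t.1 ≠ t.2.1))
            * (BB D P X * ((X : ℝ) ^ k * (X : ℝ) ^ k) * X) := by
          rw [Finset.sum_const, nsmul_eq_mul]
      _ ≤ (k : ℝ) ^ 3 * (BB D P X * ((X : ℝ) ^ k * (X : ℝ) ^ k) * X) := by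
          refine mul_le_mul_of_nonneg_right ?_ (by positivity)
          have : #((univ : Finset (Fin k × Fin k × Fin k)).filter (fun t => t.1 ≠ t.2.1)) ≤ k ^ 3 := by
            refine (Finset.card_filter_le _ _).trans (le_of_eq ?_)
            rw [Finset.card_univ, Fintype.card_prod, Fintype.card_prod, Fintype.card_fin]; ring
          exact_mod_cast this
      _ = (k : ℝ) ^ 3 * BB D P X * ((X : ℝ) ^ k * (X : ℝ) ^ k) * X := by ring
  exact le_of_mul_le_mul_right h5 hX'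

end CO4

open CO4

/-- CO4: most `k`-tuples in a progression are pairwise coprime. For every `k` there is `D` such that
for every modulus `P` divisible by all primes `≤ D`, all large `X`: at least half of the tuples
`x ∈ [1, X]^k` are such that the numbers `1 + P x_i` are pairwise coprime. -/
theorem coprime_tuples (k : ℕ) : ∃ D : ℕ, ∀ P : ℕ, 0 < P → (∀ p : ℕ, p.Prime → p ≤ D → p ∣ P) →
    ∃ X₀ : ℕ, ∀ X : ℕ, X₀ ≤ X →
      ((X : ℝ) ^ k) / 2 ≤ #{x ∈ Fintype.piFinset (fun _ : Fin k => Icc 1 X) |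
        ∀ i j, i ≠ j → Nat.Coprime (1 + P * x i) (1 + P * x j)} := by
  obtain ⟨D, hD, h⟩ := BB_le (k ^ 2)
  refine ⟨D, fun P _ hP => ?_⟩
  obtain ⟨X₀, hX₀, h2⟩ := h P
  refine ⟨X₀, fun X hX => ?_⟩
  have h3 := h2 X hX
  have h4 := bad1 (k := k) (X := X) hP
  have h5 := Finset.card_filter_add_card_filter_not (s := Fintype.piFinset (fun _ : Fin k => Icc 1 X))
    (fun x => ∀ i j, i ≠ j → Nat.Coprime (1 + P * x i) (1 + P * x j))
  have h6 : #(Fintype.piFinset (fun _ : Fin k => Icc 1 X)) = X ^ k := by simp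
  rw [h6] at h5
  have h7 : (#{x ∈ Fintype.piFinset (fun _ : Fin k => Icc 1 X) |
        ∀ i j, i ≠ j → Nat.Coprime (1 + P * x i) (1 + P * x j)} : ℝ)
      + #{x ∈ Fintype.piFinset (fun _ : Fin k => Icc 1 X) |
        ¬ ∀ i j, i ≠ j → Nat.Coprime (1 + P * x i) (1 + P * x j)} = (X : ℝ) ^ k := by
    exact_mod_cast h5
  have hX0 : (0 : ℝ) < X := by
    have : 0 < X := by omega
    exact_mod_cast this
  have h8 : (#{x ∈ Fintype.piFinset (fun _ : Fin k => Icc 1 X) |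
        ¬ ∀ i j, i ≠ j → Nat.Coprime (1 + P * x i) (1 + P * x j)} : ℝ) ≤ (X : ℝ) ^ k / 2 := by
    have h9 : (#{x ∈ Fintype.piFinset (fun _ : Fin k => Icc 1 X) |
        ¬ ∀ i j, i ≠ j → Nat.Coprime (1 + P * x i) (1 + P * x j)} : ℝ) * (X : ℝ) ^ 2
        ≤ (X : ℝ) ^ k / 2 * (X : ℝ) ^ 2 := by
      refine h4.trans ?_
      push_cast at h3
      have := mul_le_mul_of_nonneg_right h3 (by positivity : (0 : ℝ) ≤ (X : ℝ) ^ k)
      calc (k : ℝ) ^ 2 * BB D P X * (X : ℝ) ^ k ≤ (X : ℝ) ^ 2 / 2 * (X : ℝ) ^ k := this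
        _ = (X : ℝ) ^ k / 2 * (X : ℝ) ^ 2 := by ring
    exact le_of_mul_le_mul_right h9 (by positivity)
  linarith

/-- CO4': the same with shifts. -/
theorem coprime_tuples_shifts (k : ℕ) : ∃ D : ℕ, ∀ P : ℕ, 0 < P →
    (∀ p : ℕ, p.Prime → p ≤ D → p ∣ P) → ∃ X₀ : ℕ, ∀ X : ℕ, X₀ ≤ X →
      ((X : ℝ) ^ k * (X : ℝ) ^ k) / 2 ≤
        #{xy ∈ Fintype.piFinset (fun _ : Fin k => Icc 1 X) ×ˢ
            Fintype.piFinset (fun _ : Fin k => Icc 1 X) |
          (∀ i j, i ≠ j → Nat.Coprime (1 + P * xy.1 i) (1 + P * xy.1 j)) ∧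
          ∀ i j l, i ≠ j → IsCoprime ((1 + P * xy.1 l : ℕ) : ℤ) ((xy.2 i : ℤ) - xy.2 j)} := by
  classical
  obtain ⟨D, hD, h⟩ := BB_le (k ^ 2 + k ^ 3)
  refine ⟨D, fun P _ hP => ?_⟩
  obtain ⟨X₀, hX₀, h2⟩ := h P
  refine ⟨X₀, fun X hX => ?_⟩
  have hXpos : 0 < X := by omega
  have h3 := h2 X hX
  have hb1 := bad1 (k := k) (X := X) hP
  have hb2 := bad2 (k := k) hXpos hP
  set T := Fintype.piFinset (fun _ : Fin k => Icc 1 X) with hT
  have h6 : #T = X ^ k := by simp [hT]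
  set Gd := {xy ∈ T ×ˢ T | (∀ i j, i ≠ j → Nat.Coprime (1 + P * xy.1 i) (1 + P * xy.1 j)) ∧
          ∀ i j l, i ≠ j → IsCoprime ((1 + P * xy.1 l : ℕ) : ℤ) ((xy.2 i : ℤ) - xy.2 j)} with hGd
  set B1 := {x ∈ T | ¬ ∀ i j, i ≠ j → Nat.Coprime (1 + P * x i) (1 + P * x j)} with hB1
  set B2 := {xy ∈ T ×ˢ T | ¬ ∀ i j l, i ≠ j →
    IsCoprime ((1 + P * xy.1 l : ℕ) : ℤ) ((xy.2 i : ℤ) - xy.2 j)} with hB2
  have hcov : T ×ˢ T ⊆ Gd ∪ (B1 ×ˢ T ∪ B2) := by
    intro xy hxy
    have hxy' := Finset.mem_product.1 hxy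
    by_cases c1 : ∀ i j, i ≠ j → Nat.Coprime (1 + P * xy.1 i) (1 + P * xy.1 j)
    · by_cases c2 : ∀ i j l, i ≠ j → IsCoprime ((1 + P * xy.1 l : ℕ) : ℤ) ((xy.2 i : ℤ) - xy.2 j)
      · exact Finset.mem_union_left _ (Finset.mem_filter.2 ⟨hxy, c1, c2⟩)
      · exact Finset.mem_union_right _ (Finset.mem_union_right _ (Finset.mem_filter.2 ⟨hxy, c2⟩))
    · exact Finset.mem_union_right _ (Finset.mem_union_left _
        (Finset.mem_product.2 ⟨Finset.mem_filter.2 ⟨hxy'.1, c1⟩, hxy'.2⟩))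
  have h7 := (Finset.card_le_card hcov).trans ((Finset.card_union_le _ _).trans
    (Nat.add_le_add_left (Finset.card_union_le _ _) _))
  rw [Finset.card_product, Finset.card_product, h6] at h7
  have h8 : (X : ℝ) ^ k * (X : ℝ) ^ k ≤ #Gd + (#B1 * (X : ℝ) ^ k + #B2) := by exact_mod_cast h7
  have hX0 : (0 : ℝ) < X := by exact_mod_cast hXpos
  have h9 : (#B1 * (X : ℝ) ^ k + #B2) ≤ ((X : ℝ) ^ k * (X : ℝ) ^ k) / 2 := by
    have h10 : (#B1 * (X : ℝ) ^ k + #B2) * (X : ℝ) ^ 2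
        ≤ ((X : ℝ) ^ k * (X : ℝ) ^ k) / 2 * (X : ℝ) ^ 2 := by
      have a1 := mul_le_mul_of_nonneg_right hb1 (by positivity : (0 : ℝ) ≤ (X : ℝ) ^ k)
      push_cast at h3
      have a2 := mul_le_mul_of_nonneg_right h3 (by positivity : (0 : ℝ) ≤ (X : ℝ) ^ k * (X : ℝ) ^ k)
      nlinarith
    exact le_of_mul_le_mul_right h10 (by positivity)
  linarith

end Pool.Agent.helper39.MT
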