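import Pool.Agent.helper44.MT.CO2
import Pool.Agent.helper53.MT.CO4

/-!
# Maynard-Tao, module R1: a positive proportion of all pairs for fixed `c`
-/

namespace Pool.Agent.helper39.MT

open Finset

namespace R1

/-- counting pairs by tuples -/
theorem count_pairs {k X P : ℕ} (hX : 0 < X) (hP : 0 < P) (T : Finset (Fin k → ℕ))
    (hT : T ⊆ Fintype.piFinset (fun _ : Fin k => Icc 1 X)) (hcard : ((X : ℝ) ^ k) / 2 ≤ #T)
    (G : Finset (ℕ × ℕ)) (w₁ w₂ : Fin k → Fin k → ℕ) (h₁ : ∀ i j, i ≠ j → 0 < w₁ i j)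
    (h₂ : ∀ i j, i ≠ j → 0 < w₂ i j)
    (hTG : ∀ x ∈ T, ∃ i j, i ≠ j ∧ (w₁ i j * (1 + P * x i), w₂ i j * (1 + P * x j)) ∈ G) :
    (X : ℝ) ^ 2 / 2 ≤ (k : ℝ) ^ 2 * #G := by
  classical
  have hsub : T ⊆ ((univ : Finset (Fin k × Fin k)).filter (fun ij => ij.1 ≠ ij.2)).biUnion
      fun ij => G.biUnion fun ab => Fintype.piFinset (fun l : Fin k =>
        if l = ij.1 then {n ∈ Icc 1 X | w₁ ij.1 ij.2 * (1 + P * n) = ab.1}
        else if l = ij.2 then {n ∈ Icc 1 X | w₂ ij.1 ij.2 * (1 + P * n) = ab.2} else Icc 1 X) := by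
    intro x hx
    obtain ⟨i, j, hij, hG⟩ := hTG x hx
    have hx' := Fintype.mem_piFinset.1 (hT hx)
    simp only [Finset.mem_biUnion, Finset.mem_filter, Finset.mem_univ, true_and,
      Fintype.mem_piFinset]
    refine ⟨(i, j), hij, _, hG, fun l => ?_⟩
    simp only
    split_ifs with h3 h4
    · subst h3; exact Finset.mem_filter.2 ⟨hx' l, rfl⟩
    · subst h4; exact Finset.mem_filter.2 ⟨hx' l, rfl⟩
    · exact hx' l
  have h1 := (Finset.card_le_card hsub).trans (Finset.card_biUnion_le.trans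
    (Finset.sum_le_sum fun ij _ => Finset.card_biUnion_le))
  have h3 := Nat.mul_le_mul_right (X ^ 2) h1
  simp only [Finset.sum_mul] at h3
  have hone : ∀ (w a : ℕ), 0 < w → #{n ∈ Icc 1 X | w * (1 + P * n) = a} ≤ 1 := by
    intro w a hw
    rw [Finset.card_le_one]
    intro n hn n' hn'
    have e1 := (Finset.mem_filter.1 hn).2
    have e2 := (Finset.mem_filter.1 hn').2
    have e3 := Nat.eq_of_mul_eq_mul_left hw (e1.trans e2.symm)
    exact Nat.eq_of_mul_eq_mul_left hP (by omega)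
  have h4 : #T * X ^ 2 ≤ k ^ 2 * #G * X ^ k := by
    refine h3.trans ?_
    calc ∑ ij ∈ (univ : Finset (Fin k × Fin k)).filter (fun ij => ij.1 ≠ ij.2), ∑ ab ∈ G,
          #(Fintype.piFinset (fun l : Fin k =>
        if l = ij.1 then {n ∈ Icc 1 X | w₁ ij.1 ij.2 * (1 + P * n) = ab.1}
        else if l = ij.2 then {n ∈ Icc 1 X | w₂ ij.1 ij.2 * (1 + P * n) = ab.2} else Icc 1 X)) * X ^ 2
        ≤ ∑ ij ∈ (univ : Finset (Fin k × Fin k)).filter (fun ij => ij.1 ≠ ij.2), ∑ ab ∈ G, X ^ k := by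
          refine Finset.sum_le_sum fun ij hij => Finset.sum_le_sum fun ab _ => ?_
          have hij' := (Finset.mem_filter.1 hij).2
          rw [CO4.card_pi_two X hij']
          have a1 := hone (w₁ ij.1 ij.2) ab.1 (h₁ _ _ hij')
          have a2 := hone (w₂ ij.1 ij.2) ab.2 (h₂ _ _ hij')
          calc _ ≤ 1 * 1 * X ^ k := Nat.mul_le_mul_right _ (Nat.mul_le_mul a1 a2)
            _ = X ^ k := by ring
      _ = #((univ : Finset (Fin k × Fin k)).filter (fun ij => ij.1 ≠ ij.2)) * (#G * X ^ k) := by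
          rw [Finset.sum_const, Finset.sum_const, smul_eq_mul, smul_eq_mul]
      _ ≤ k ^ 2 * (#G * X ^ k) := by
          refine Nat.mul_le_mul_right _ ?_
          refine (Finset.card_filter_le _ _).trans (le_of_eq ?_)
          rw [Finset.card_univ, Fintype.card_prod, Fintype.card_fin]; ring
      _ = k ^ 2 * #G * X ^ k := by ring
  have h5 : (#T : ℝ) * (X : ℝ) ^ 2 ≤ (k : ℝ) ^ 2 * #G * (X : ℝ) ^ k := by exact_mod_cast h4
  have hX0 : (0 : ℝ) < (X : ℝ) ^ k := by positivity
  have h6 : (X : ℝ) ^ 2 / 2 * (X : ℝ) ^ k ≤ (k : ℝ) ^ 2 * #G * (X : ℝ) ^ k := by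
    have := mul_le_mul_of_nonneg_right hcard (by positivity : (0 : ℝ) ≤ (X : ℝ) ^ 2)
    linarith
  exact le_of_mul_le_mul_right h6 hX0

/-- a residue class avoiding `k` classes -/
theorem exists_avoid {k p : ℕ} (hkp : k < p) (e : Fin k → ℤ) : ∃ n : ℤ, ∀ i, ¬ (p : ℤ) ∣ n + e i := by
  by_contra hcon
  push Not at hcon
  choose f hf using hcon
  have hinj : Set.InjOn (fun n : ℕ => f (n : ℤ)) (Finset.range p) := by
    intro a ha b hb hab
    simp only at hab
    have h1 := hf (a : ℤ)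
    have h2 := hf (b : ℤ)
    rw [hab] at h1
    have h3 := dvd_sub h1 h2
    have h4 : (a : ℤ) + e (f b) - (b + e (f b)) = (a : ℤ) - b := by ring
    rw [h4] at h3
    have ha' := Finset.mem_range.1 (Finset.mem_coe.1 ha)
    have hb' := Finset.mem_range.1 (Finset.mem_coe.1 hb)
    have h5 : (a : ℤ) - b = 0 := by
      apply Int.eq_zero_of_abs_lt_dvd h3
      rw [abs_lt]; constructor <;> omega
    omega
  have := Finset.card_le_card_of_injOn (s := Finset.range p) (t := (univ : Finset (Fin k)))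
    (fun n : ℕ => f (n : ℤ)) (fun _ _ => Finset.mem_univ _) hinj
  simp at this
  omega

/-- the local conditions -/
theorem local_cond {k : ℕ} {h x : Fin k → ℕ} {c : ℤ} {K P : ℕ}
    (hh0 : ∀ i, 0 < h i) (hinj : Function.Injective h) (hhK : ∀ i, h i ≤ K) (hkK : k ≤ K)
    (hcK : ∀ p : ℕ, p.Prime → (p : ℤ) ∣ c → K < p) (hP : ∀ p : ℕ, p.Prime → p ≤ K → p ∣ P)
    (hcP : c.natAbs ∣ P)
    (hcop : ∀ i j, i ≠ j → Nat.Coprime (1 + P * x i) (1 + P * x j)) (p : ℕ) (hp : p.Prime) :
    ∃ n : ℤ, ∀ i, ((p ^ (h i * (1 + P * x i)).factorization p : ℕ) : ℤ) ∣ n + c * h i ∧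
      ¬ ((p ^ ((h i * (1 + P * x i)).factorization p + 1) : ℕ) : ℤ) ∣ n + c * h i := by
  have hpint : Prime (p : ℤ) := Nat.prime_iff_prime_int.1 hp
  have hA0 : ∀ i, 1 + P * x i ≠ 0 := fun i => by omega
  have hfac : ∀ i, (h i * (1 + P * x i)).factorization p
      = (h i).factorization p + (1 + P * x i).factorization p := by
    intro i
    rw [Nat.factorization_mul (hh0 i).ne' (hA0 i)]; rfl
  have hPA : ∀ i, p ∣ P → (1 + P * x i).factorization p = 0 := by
    intro i hpP
    apply Nat.factorization_eq_zero_of_not_dvd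
    intro hd
    have : p ∣ 1 := (Nat.dvd_add_left (hpP.mul_right _)).1 hd
    exact hp.one_lt.ne' (Nat.dvd_one.1 this)
  have hhp : K < p → ∀ i, (h i).factorization p = 0 := by
    intro hKp i
    apply Nat.factorization_eq_zero_of_not_dvd
    intro hd
    have := Nat.le_of_dvd (hh0 i) hd
    have := hhK i
    omega
  by_cases hpc : (p : ℤ) ∣ c
  · -- `p ∣ c`
    have hKp := hcK p hp hpc
    have hpP : p ∣ P := by
      have : p ∣ c.natAbs := Int.natCast_dvd.1 hpc
      exact this.trans hcP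
    refine ⟨1, fun i => ?_⟩
    rw [hfac, hhp hKp, hPA i hpP]
    simp only [add_zero, pow_zero, Nat.cast_one, one_dvd, true_and, zero_add, pow_one]
    intro hd
    have h1 : (p : ℤ) ∣ c * h i := hpc.mul_right _
    have h2 := (dvd_add_left h1).1 hd
    exact hpint.not_isUnit (isUnit_of_dvd_one h2)
  by_cases hpP : p ∣ P
  · refine ⟨0, fun i => ?_⟩
    rw [hfac, hPA i hpP, add_zero, zero_add]
    constructor
    · refine dvd_mul_of_dvd_right ?_ _
      exact_mod_cast Nat.ordProj_dvd (h i) p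
    · intro hd
      have hcopc : IsCoprime ((p ^ ((h i).factorization p + 1) : ℕ) : ℤ) c := by
        push_cast
        exact IsCoprime.pow_left ((Prime.coprime_iff_not_dvd hpint).2 hpc)
      have h1 := hcopc.dvd_of_dvd_mul_left hd
      have h2 : p ^ ((h i).factorization p + 1) ∣ h i := by exact_mod_cast h1
      exact Nat.pow_succ_factorization_not_dvd (hh0 i).ne' hp h2
  · have hKp : K < p := by
      by_contra hcon
      exact hpP (hP p hp (by omega))
    by_cases hA : ∃ l, p ∣ 1 + P * x l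
    · obtain ⟨l, hl⟩ := hA
      set v := (1 + P * x l).factorization p with hv
      have hv1 : 1 ≤ v := (hp.dvd_iff_one_le_factorization (hA0 l)).1 hl
      refine ⟨-(c * h l) + (p : ℤ) ^ v, fun i => ?_⟩
      by_cases hil : i = l
      · subst hil
        rw [hfac, hhp hKp, zero_add, ← hv]
        have e1 : -(c * (h i : ℤ)) + (p : ℤ) ^ v + c * h i = (p : ℤ) ^ v := by ring
        rw [e1]
        push_cast
        refine ⟨dvd_rfl, ?_⟩
        intro hd
        have h1 : (p : ℤ) ^ v ≠ 0 := pow_ne_zero _ hpint.ne_zero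
        rw [pow_succ] at hd
        have h2 : (p : ℤ) ^ v * p ∣ (p : ℤ) ^ v * 1 := by simpa using hd
        have h3 := (mul_dvd_mul_iff_left h1).1 h2
        exact hpint.not_isUnit (isUnit_of_dvd_one h3)
      · have hnd : ¬ p ∣ 1 + P * x i := by
          intro hd
          have := Nat.Coprime.eq_one_of_dvd (Nat.Coprime.coprime_dvd_left hd (hcop i l hil)) hl
          exact hp.one_lt.ne' this
        rw [hfac, hhp hKp, Nat.factorization_eq_zero_of_not_dvd hnd]
        simp only [add_zero, pow_zero, Nat.cast_one, one_dvd, true_and, zero_add, pow_one]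
        intro hd
        have e1 : -(c * (h l : ℤ)) + (p : ℤ) ^ v + c * h i = c * ((h i : ℤ) - h l) + (p : ℤ) ^ v := by
          ring
        rw [e1] at hd
        have h1 : (p : ℤ) ∣ (p : ℤ) ^ v := dvd_pow_self _ (by omega)
        have h2 := (dvd_add_left h1).1 hd
        rcases hpint.dvd_or_dvd h2 with h3 | h3
        · exact hpc h3
        · have h4 : (h i : ℤ) - h l = 0 := by
            apply Int.eq_zero_of_abs_lt_dvd h3
            have := hhK i
            have := hhK l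
            rw [abs_lt]; constructor <;> omega
          exact hil (hinj (by omega))
    · push Not at hA
      obtain ⟨n, hn⟩ := exists_avoid (lt_of_le_of_lt hkK hKp) (fun i => c * (h i : ℤ))
      refine ⟨n, fun i => ?_⟩
      rw [hfac, hhp hKp, Nat.factorization_eq_zero_of_not_dvd (hA i)]
      simp only [add_zero, pow_zero, Nat.cast_one, one_dvd, true_and, zero_add, pow_one]
      exact hn i

theorem InfSol_symm {a b : ℕ} {c : ℤ} (h : InfSol a b c) : InfSol b a (-c) := by
  unfold InfSol at h ⊢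
  refine (h.image (f := Prod.swap) (Prod.swap_injective.injOn)).mono ?_
  rintro _ ⟨⟨p, q⟩, ⟨h1, h2, h3⟩, rfl⟩
  exact ⟨h2, h1, by simp only [Prod.swap] at *; linarith⟩

theorem InfSol_div {a b g : ℕ} {c : ℤ} (hg : 0 < g) (h : InfSol (g * a) (g * b) (g * c)) :
    InfSol a b c := by
  unfold InfSol at h ⊢
  refine h.mono ?_
  rintro ⟨p, q⟩ ⟨h1, h2, h3⟩
  refine ⟨h1, h2, ?_⟩
  have hg' : (g : ℤ) ≠ 0 := by exact_mod_cast hg.ne'
  apply mul_left_cancel₀ hg'
  push_cast at h3
  linear_combination h3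

/-- the arithmetic of one good tuple -/
theorem one_tuple {h h' A A' g P : ℕ} {c : ℤ} (hh : 0 < h) (hh' : 0 < h') (hA : 0 < A) (hA' : 0 < A')
    (hg : g = h - h') (hlt : h' < h) (hgh : g ∣ h) (hgh' : g ∣ h')
    (hPA : Nat.Coprime P A) (hPA' : Nat.Coprime P A') (hhP : h ∣ P) (hhP' : h' ∣ P)
    (hAA' : Nat.Coprime A A') (hI : InfSol (h * A) (h' * A') (c * h - c * h')) :
    Nat.Coprime (h / g * A) (h' / g * A') ∧ 0 < h / g * A ∧ 0 < h' / g * A' ∧
      InfSol (h / g * A) (h' / g * A') c := by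
  have hg0 : 0 < g := by omega
  obtain ⟨a, ha⟩ := hgh
  obtain ⟨a', ha'⟩ := hgh'
  have hq : h / g = a := by rw [ha]; exact Nat.mul_div_cancel_left a hg0
  have hq' : h' / g = a' := by rw [ha']; exact Nat.mul_div_cancel_left a' hg0
  rw [hq, hq']
  have ha0 : 0 < a := by
    rcases Nat.eq_zero_or_pos a with h0 | h0
    · rw [h0, mul_zero] at ha; omega
    · exact h0
  have ha0' : 0 < a' := by
    rcases Nat.eq_zero_or_pos a' with h0 | h0
    · rw [h0, mul_zero] at ha'; omega
    · exact h0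
  have hdiff : a = a' + 1 := by
    have e1 : g * a = g * a' + g := by rw [← ha, ← ha']; omega
    have e2 : g * a = g * (a' + 1) := by rw [e1]; ring
    exact Nat.eq_of_mul_eq_mul_left hg0 e2
  have haa' : Nat.Coprime a a' := by
    rw [hdiff]
    exact (Nat.coprime_self_add_left).2 (Nat.coprime_one_left _)
  have haP : a ∣ P := (Dvd.intro_left g ha.symm).trans hhP
  have haP' : a' ∣ P := (Dvd.intro_left g ha'.symm).trans hhP'
  refine ⟨?_, by positivity, by positivity, ?_⟩
  · refine Nat.Coprime.mul_left ?_ ?_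
    · exact Nat.Coprime.mul_right haa' (Nat.Coprime.coprime_dvd_left haP hPA')
    · exact Nat.Coprime.mul_right (Nat.Coprime.coprime_dvd_left haP' hPA).symm hAA'
  · refine InfSol_div hg0 ?_
    have e1 : g * (a * A) = h * A := by rw [ha]; ring
    have e2 : g * (a' * A') = h' * A' := by rw [ha']; ring
    have e3 : (g : ℤ) * c = c * h - c * h' := by
      have : (g : ℤ) = (h : ℤ) - h' := by rw [hg]; omega
      rw [this]; ring
    rw [e1, e2, e3]
    exact hI

end R1

open R1 in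
open Classical in
/-- R1 (hand-in): for every `c` without prime factors `≤ K`, a positive proportion of all pairs,
from the statement of `two_primes_general`. -/
theorem pairs_for_fixed_c_of
    (hCO : ∃ k : ℕ, 2 ≤ k ∧ ∀ (u : Fin k → ℕ) (e : Fin k → ℤ), (∀ i, 0 < u i) →
    Function.Injective e →
    (∀ p : ℕ, p.Prime → ∃ n : ℤ, ∀ i, ((p ^ (u i).factorization p : ℕ) : ℤ) ∣ n + e i ∧
      ¬ ((p ^ ((u i).factorization p + 1) : ℕ) : ℤ) ∣ n + e i) →
    ∃ i j, i ≠ j ∧ InfSol (u i) (u j) (e i - e j)) :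
    ∃ K : ℕ, ∀ c : ℤ, c ≠ 0 → (∀ p : ℕ, p.Prime → (p : ℤ) ∣ c → K < p) →
    ∃ δ : ℝ, 0 < δ ∧ ∃ N₀ : ℕ, ∀ N : ℕ, N₀ ≤ N →
      δ * (N : ℝ) ^ 2 ≤ #{ab ∈ Icc 1 N ×ˢ Icc 1 N | Nat.Coprime ab.1 ab.2 ∧
        IsCoprime (ab.1 : ℤ) c ∧ IsCoprime (ab.2 : ℤ) c ∧
        ¬ (Odd (ab.1 : ℤ) ∧ Odd (ab.2 : ℤ) ∧ Odd c) ∧ InfSol ab.1 ab.2 c} := by
  obtain ⟨k, hk2, hCO1⟩ := hCO
  obtain ⟨h, hmono, hpos, hdvd⟩ := heath_brown_set k
  obtain ⟨D, hCO4⟩ := coprime_tuples k
  set H := ∑ i, h i with hH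
  have hhH : ∀ i, h i ≤ H := fun i => Finset.single_le_sum (fun _ _ => Nat.zero_le _) (Finset.mem_univ i)
  have hHpos : 0 < H := by
    have : 0 < h ⟨0, by omega⟩ := hpos _
    exact lt_of_lt_of_le this (hhH _)
  refine ⟨k + D + H, fun c hc hcK => ?_⟩
  set K := k + D + H with hK
  set P := c.natAbs * (K.factorial * ∏ i, h i) with hP
  have hPpos : 0 < P := by
    rw [hP]
    refine Nat.mul_pos (Int.natAbs_pos.2 hc) (Nat.mul_pos (Nat.factorial_pos K) ?_)
    exact Finset.prod_pos fun i _ => hpos i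
  have hPK : ∀ p : ℕ, p.Prime → p ≤ K → p ∣ P := fun p hp hle =>
    ((hp.dvd_factorial.2 hle).mul_right _).mul_left _
  have hhP : ∀ i, h i ∣ P := fun i =>
    ((Finset.dvd_prod_of_mem h (Finset.mem_univ i)).mul_left _).mul_left _
  obtain ⟨X₀, hX₀⟩ := hCO4 P hPpos (fun p hp hle => hPK p hp (by omega))
  have hHP : 0 < H * (P + 1) := by positivity
  set Q := H * (P + 1) with hQ
  refine ⟨1 / (8 * (k : ℝ) ^ 2 * (Q : ℝ) ^ 2), by positivity, Q * (X₀ + 2), fun N hN => ?_⟩
  set X := N / Q with hX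
  have hXX₀ : X₀ + 2 ≤ X := by
    rw [hX, Nat.le_div_iff_mul_le hHP]
    rw [mul_comm]; exact hN
  have hXpos : 0 < X := by omega
  have hXN : Q * X ≤ N := Nat.mul_div_le N Q
  have hNX : N < Q * (X + 1) := by
    rw [hX]; exact Nat.lt_mul_div_succ N hHP
  have hcard := hX₀ X (by omega)
  set T := {x ∈ Fintype.piFinset (fun _ : Fin k => Icc 1 X) |
        ∀ i j, i ≠ j → Nat.Coprime (1 + P * x i) (1 + P * x j)} with hT
  set G := {ab ∈ Icc 1 N ×ˢ Icc 1 N | Nat.Coprime ab.1 ab.2 ∧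
        IsCoprime (ab.1 : ℤ) c ∧ IsCoprime (ab.2 : ℤ) c ∧
        ¬ (Odd (ab.1 : ℤ) ∧ Odd (ab.2 : ℤ) ∧ Odd c) ∧ InfSol ab.1 ab.2 c} with hG
  have hcountr := count_pairs hXpos hPpos T (Finset.filter_subset _ _) hcard G
    (fun i j => if h j < h i then h i / (h i - h j) else 1)
    (fun i j => if h j < h i then h j / (h i - h j) else 1) ?_ ?_ ?_
  · have hN1 : (N : ℝ) ≤ 2 * Q * X := by
      have : N ≤ Q * (2 * X) := hNX.le.trans (Nat.mul_le_mul_left _ (by omega))
      have h2 : (N : ℝ) ≤ Q * (2 * X) := by exact_mod_cast this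
      linarith
    have hk0 : (0 : ℝ) < k := by
      have : 0 < k := by omega
      exact_mod_cast this
    have hQ0 : (0 : ℝ) < Q := by exact_mod_cast hHP
    have h3 : (N : ℝ) ^ 2 ≤ 4 * (Q : ℝ) ^ 2 * (X : ℝ) ^ 2 := by
      have := pow_le_pow_left₀ (by positivity) hN1 2
      calc (N : ℝ) ^ 2 ≤ (2 * Q * X) ^ 2 := this
        _ = _ := by ring
    rw [one_div, inv_mul_le_iff₀ (by positivity)]
    calc (N : ℝ) ^ 2 ≤ 4 * (Q : ℝ) ^ 2 * (X : ℝ) ^ 2 := h3
      _ = 8 * (Q : ℝ) ^ 2 * ((X : ℝ) ^ 2 / 2) := by ring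
      _ ≤ 8 * (Q : ℝ) ^ 2 * ((k : ℝ) ^ 2 * #G) := mul_le_mul_of_nonneg_left hcountr (by positivity)
      _ = _ := by ring
  · intro i j hij
    split_ifs with hlt
    · refine Nat.div_pos (by omega) (by omega)
    · exact one_pos
  · intro i j hij
    split_ifs with hlt
    · have hji : j < i := by
        by_contra hcon
        have := hmono.monotone (not_lt.1 hcon)
        omega
      exact Nat.div_pos (Nat.le_of_dvd (hpos j) (hdvd j i hji).1) (by omega)
    · exact one_pos
  · intro x hx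
    have hx1 := Fintype.mem_piFinset.1 (Finset.mem_filter.1 hx).1
    have hcop := (Finset.mem_filter.1 hx).2
    obtain ⟨i, j, hij, hI⟩ := hCO1 (fun i => h i * (1 + P * x i)) (fun i => c * h i)
      (fun i => Nat.mul_pos (hpos i) (by omega))
      (fun i j hij => hmono.injective (by
        have := mul_left_cancel₀ hc hij
        exact_mod_cast this))
      (fun p hp => local_cond hpos hmono.injective (fun i => (hhH i).trans (by omega)) (by omega)
        hcK hPK (Dvd.intro _ rfl) hcop p hp)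
    -- the two orders
    have key : ∀ i j : Fin k, j < i → InfSol (h i * (1 + P * x i)) (h j * (1 + P * x j))
        (c * h i - c * h j) → ∃ i j, i ≠ j ∧
        ((if h j < h i then h i / (h i - h j) else 1) * (1 + P * x i),
          (if h j < h i then h j / (h i - h j) else 1) * (1 + P * x j)) ∈ G := by
      intro i j hji hI
      have hlt : h j < h i := hmono hji
      refine ⟨i, j, hji.ne', ?_⟩
      rw [if_pos hlt, if_pos hlt]
      have hPA : ∀ i, Nat.Coprime P (1 + P * x i) := fun i => by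
        rw [Nat.coprime_add_mul_left_right]; exact Nat.coprime_one_right _
      obtain ⟨g1, g2, g3, g4⟩ := one_tuple (hpos i) (hpos j) (by omega : 0 < 1 + P * x i)
        (by omega : 0 < 1 + P * x j) rfl hlt (hdvd j i hji).2 (hdvd j i hji).1
        (hPA i) (hPA j) (hhP i) (hhP j) (hcop i j hji.ne') hI
      obtain ⟨c1, c2, c3⟩ := InfSol.conditions g2 g3 hc g1 g4
      have hbound : ∀ (w : ℕ) (l : Fin k), w ≤ H → w * (1 + P * x l) ≤ N := by
        intro w l hw
        have hxl := Finset.mem_Icc.1 (hx1 l)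
        calc w * (1 + P * x l) ≤ H * (1 + P * x l) := Nat.mul_le_mul_right _ hw
          _ ≤ H * ((P + 1) * X) := by
              refine Nat.mul_le_mul_left _ ?_
              calc 1 + P * x l ≤ x l + P * x l := by omega
                _ = (P + 1) * x l := by ring
                _ ≤ (P + 1) * X := Nat.mul_le_mul_left _ hxl.2
          _ = Q * X := by rw [hQ]; ring
          _ ≤ N := hXN
      refine Finset.mem_filter.2 ⟨Finset.mem_product.2 ⟨Finset.mem_Icc.2 ⟨g2, ?_⟩,
        Finset.mem_Icc.2 ⟨g3, ?_⟩⟩, g1, c1, c2, c3, g4⟩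
      · exact hbound _ i ((Nat.div_le_self _ _).trans (hhH i))
      · exact hbound _ j ((Nat.div_le_self _ _).trans (hhH j))
    rcases lt_or_gt_of_ne hij with hlt | hlt
    · refine key j i hlt ?_
      have := InfSol_symm hI
      have e : -(c * (h i : ℤ) - c * h j) = c * h j - c * h i := by ring
      rw [e] at this
      exact this
    · exact key i j hlt hI

end Pool.Agent.helper39.MT
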