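import Pool.Agent.helper53.MT.TR11b
import Pool.Agent.helper99.MT.AN9

/-!
# Maynard-Tao, module TR11b: `S2_lower`
-/

namespace Pool.Agent.helper39.MT

open Finset Real ArithmeticFunction

theorem S2_lower {k D₀ W : ℕ} {A B : Fin k → ℕ} (h : Std k D₀ A B W) (hk : 2 ≤ k)
    (hD : 4 * k + 4 ≤ D₀) :
    ∃ C₀ : ℕ, ∃ L₁ : ℝ, ∀ L : ℝ, L₁ ≤ L → Good C₀ L → ∀ R : ℕ, 2 ≤ R →
      (R : ℝ) ≤ Real.exp (L / 200) →
      ∀ y : (PS W R → Option (Fin k)) → ℝ, (∀ σ, |y σ| ≤ 1) →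
      (∀ σ, y σ ≠ 0 → dd (fun p : PS W R => (p : ℕ)) σ ≤ R) → ∀ m : Fin k,
      (W : ℝ) / Nat.totient W * (L / 5) *
          Ex (fun p : PS W R => mu1 m (p : ℝ)) (fun e => FF (fun p : PS W R => (p : ℕ)) y e ^ 2)
          - 1 / L
        ≤ ∑ n ∈ Ioc 0 (NN L 0) with (A m * n + B m).Prime, wt L 0 n * Real.log (A m * n + B m) *
          FF (fun p : PS W R => (p : ℕ)) y (pat A B (PS W R) n) ^ 2 :=
  S2_lower_of bv_log h hk hD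

end Pool.Agent.helper39.MT
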